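import Pool.Agent.H59.SickLemmas

set_option autoImplicit false

open MeasureTheory Topology Set Filter
open scoped ENNReal NNReal
open Pool.Agent.H59.Sick

namespace Pool.Agent.Results.MP_d104cf_an.Full

universe v w

/-- Every strongly countably determined measure on a sick compactum is analytic. -/
theorem result (K : Type w) [TopologicalSpace K] [CompactSpace K] [T2Space K]
    [MeasurableSpace K] [BorelSpace K] (hK : IsSick.{v, w} K) (μ : PK K)
    (hμ : IsGδ ({μ} : Set (PK K))) : IsAnalyticMeasure μ.1 := by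
  obtain ⟨E, _, _, _, _, _, _, _, _, u, hu, -, ⟨h⟩⟩ := hK
  have hprob : IsProbabilityMeasure μ.1 := μ.2.1
  have hreg : μ.1.Regular := μ.2.2
  obtain ⟨Φ, hadd, hsmul, hle, habs, hone, hI, hsurj⟩ := kakutani hu h
  obtain ⟨S, hSc, hS⟩ := determined μ hμ
  obtain ⟨D, hDc, hD⟩ := sandwich_countable μ S hSc hS
  let i : C(K, ℝ) → Lp ℝ 1 μ.1 := fun f => (integrable_C μ.1 f).toL1 f
  have hi : ∀ f, (i f : K → ℝ) =ᵐ[μ.1] f := fun f => Integrable.coeFn_toL1 _
  have hdist : ∀ f g, dist (i f) (i g) = ∫ x, |f x - g x| ∂μ.1 := by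
    intro f g
    rw [dist_eq_norm]
    have e : i f - i g = ((integrable_C μ.1 f).sub (integrable_C μ.1 g)).toL1 _ := by
      rw [Integrable.toL1_sub]
    rw [e, L1.norm_of_fun_eq_integral_norm]
    rfl
  have hset : {F : Lp ℝ 1 μ.1 | ∃ f : C(K, ℝ), (F : K → ℝ) =ᵐ[μ.1] f} = range i := by
    ext F
    constructor
    · rintro ⟨f, hf⟩
      refine ⟨f, ?_⟩
      apply Lp.ext
      exact (hi f).trans hf.symm
    · rintro ⟨f, rfl⟩
      exact ⟨f, hi f⟩
  have hdense : DenseRange i := by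
    have h1 : DenseRange (ContinuousMap.toLp (E := ℝ) 1 μ.1 ℝ : C(K, ℝ) → Lp ℝ 1 μ.1) :=
      ContinuousMap.toLp_denseRange ℝ μ.1 ℝ (by simp)
    have h2 : (ContinuousMap.toLp (E := ℝ) 1 μ.1 ℝ : C(K, ℝ) → Lp ℝ 1 μ.1) = i := by
      funext f
      apply Lp.ext
      exact (ContinuousMap.coeFn_toLp (E := ℝ) μ.1 (𝕜 := ℝ) f).trans (hi f).symm
    rwa [h2] at h1
  have hDdense : Dense (i '' D) := by
    rw [Metric.dense_iff]
    intro F ε hε
    obtain ⟨f, hf⟩ := hdense.exists_dist_lt F (half_pos hε)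
    obtain ⟨g, hgD, hfg, hg⟩ := hD f (ε / 2) (half_pos hε)
    refine ⟨i g, ?_, mem_image_of_mem i hgD⟩
    rw [Metric.mem_ball]
    have h1 : dist (i g) (i f) < ε / 2 := by
      rw [hdist]
      have h2 : ∫ x, |g x - f x| ∂μ.1 = ∫ x, (g x - f x) ∂μ.1 := by
        congr 1; funext x; exact abs_of_nonneg (sub_nonneg.mpr (hfg x))
      rw [h2, integral_sub (integrable_C _ g) (integrable_C _ f)]
      linarith
    calc dist (i g) F ≤ dist (i g) (i f) + dist (i f) F := dist_triangle _ _ _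
      _ < ε := by rw [dist_comm (i f) F]; linarith
  have hsepL : TopologicalSpace.SeparableSpace (Lp ℝ 1 μ.1) := ⟨⟨_, hDc.image i, hDdense⟩⟩
  refine ⟨hsepL, ?_⟩
  rw [hset]
  -- inverse of Φ
  have hΦsub : ∀ f g, Φ (f - g) = Φ f - Φ g := by
    intro f g
    have e : f - g = f + (-1 : ℝ) • g := by
      ext x
      simp only [ContinuousMap.sub_apply, ContinuousMap.add_apply, ContinuousMap.smul_apply, smul_eq_mul]
      ring
    rw [e, hadd, hsmul, neg_one_smul, ← sub_eq_add_neg]
  choose! Ψ hΨ using hsurj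
  have hΨΦ : ∀ f, Ψ (Φ f) = f := by
    intro f
    have h1 := hΨ (Φ f) (hI f)
    exact le_antisymm ((hle _ _).mpr h1.le) ((hle _ _).mpr h1.ge)
  have hrange : range i = ⋃ n : ℕ, (fun y => i (Ψ y)) '' {y : E | |y| ≤ n • u} := by
    ext F
    constructor
    · rintro ⟨f, rfl⟩
      obtain ⟨n, hn⟩ := hI f
      exact mem_iUnion_of_mem n ⟨Φ f, hn, congrArg i (hΨΦ f)⟩
    · intro hF
      obtain ⟨n, y, hy, rfl⟩ := mem_iUnion.mp hF
      exact ⟨_, rfl⟩
  rw [hrange]
  apply AnalyticSet.iUnion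
  intro n
  borelize E
  borelize (↥(Lp ℝ 1 μ.1))
  have hcontabs : Continuous (fun w : E => |w|) := by
    unfold abs
    exact continuous_id.sup continuous_neg
  have hclosed : IsClosed {y : E | |y| ≤ n • u} := isClosed_le hcontabs continuous_const
  have hPolE : PolishSpace E := inferInstance
  have hPol : PolishSpace {y : E | |y| ≤ n • u} := hclosed.polishSpace
  have himg : (fun y => i (Ψ y)) '' {y : E | |y| ≤ n • u} =
      (fun y : {y : E | |y| ≤ n • u} => i (Ψ y)) '' univ := by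
    ext F
    constructor
    · rintro ⟨y, hy, rfl⟩; exact ⟨⟨y, hy⟩, trivial, rfl⟩
    · rintro ⟨⟨y, hy⟩, -, rfl⟩; exact ⟨y, hy, rfl⟩
  rw [himg]
  have hmeas : Measurable (fun y : {y : E | |y| ≤ n • u} => i (Ψ y)) := by
    have hball : ∀ d ∈ D, ∀ q : ℝ,
        MeasurableSet ((fun y : {y : E | |y| ≤ n • u} => i (Ψ y)) ⁻¹' Metric.ball (i d) q) := by
      intro d hd q
      have e : ((fun y : {y : E | |y| ≤ n • u} => i (Ψ y)) ⁻¹' Metric.ball (i d) q) =
          ⋃ g ∈ {g ∈ D | ∫ x, g x ∂μ.1 < q}, {y : {y : E | |y| ≤ n • u} | |(y : E) - Φ d| ≤ Φ g} := by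
        ext y
        simp only [mem_preimage, Metric.mem_ball, mem_iUnion, exists_prop]
        have hyI : (y : E) ∈ Iu u := ⟨n, y.2⟩
        have hΦΨ : Φ (Ψ y) = y := hΨ y hyI
        have hiff : ∀ g, |(y : E) - Φ d| ≤ Φ g ↔ |Ψ y - d| ≤ g := by
          intro g
          rw [hle, habs, hΦsub, hΦΨ]
        rw [hdist]
        constructor
        · intro hlt
          obtain ⟨g, hgD, hg1, hg2⟩ := hD (|Ψ y - d|) (q - ∫ x, |Ψ y x - d x| ∂μ.1) (by linarith)
          refine ⟨g, ⟨hgD, ?_⟩, (hiff g).mpr hg1⟩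
          have e2 : ∫ x, (|Ψ y - d| : C(K, ℝ)) x ∂μ.1 = ∫ x, |Ψ y x - d x| ∂μ.1 := rfl
          rw [e2] at hg2
          linarith
        · rintro ⟨g, ⟨hgD, hgq⟩, hg⟩
          have h1 := (hiff g).mp hg
          have h2 : ∫ x, |Ψ y x - d x| ∂μ.1 ≤ ∫ x, g x ∂μ.1 :=
            integral_mono (integrable_C μ.1 (|Ψ y - d|)) (integrable_C _ g) h1
          linarith
      rw [e]
      apply MeasurableSet.biUnion
      · exact hDc.mono (fun g hg => hg.1)
      · intro g _
        apply IsClosed.measurableSet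
        exact isClosed_le (hcontabs.comp (continuous_subtype_val.sub continuous_const)) continuous_const
    apply measurable_of_isOpen
    intro U hU
    have hcover : U = ⋃ d ∈ D, ⋃ q ∈ {q : ℚ | Metric.ball (i d) q ⊆ U}, Metric.ball (i d) (q:ℝ) := by
      ext F
      constructor
      · intro hF
        obtain ⟨r, hr, hrU⟩ := Metric.isOpen_iff.mp hU F hF
        obtain ⟨q, hq1, hq2⟩ := exists_rat_btwn (show (0:ℝ) < r / 2 by linarith)
        obtain ⟨_, ⟨hd1, ⟨d, hd, rfl⟩⟩⟩ := Metric.dense_iff.mp hDdense F q hq1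
        simp only [mem_iUnion, exists_prop]
        refine ⟨d, hd, q, ?_, ?_⟩
        · intro G hG
          apply hrU
          rw [Metric.mem_ball] at *
          calc dist G F ≤ dist G (i d) + dist (i d) F := dist_triangle _ _ _
            _ < r := by linarith
        · rw [Metric.mem_ball, dist_comm]
          exact hd1
      · intro hF
        simp only [mem_iUnion, exists_prop] at hF
        obtain ⟨d, hd, q, hq, hFq⟩ := hF
        exact hq hFq
    rw [hcover]
    simp only [preimage_iUnion]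
    apply MeasurableSet.biUnion hDc
    intro d hd
    apply MeasurableSet.biUnion (to_countable _)
    intro q _
    exact hball d hd q
  exact MeasurableSet.univ.analyticSet_image hmeas

end Pool.Agent.Results.MP_d104cf_an.Full
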